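import Pool.Agent.MP_0e6a9f_ag.H19.Spec

/-! The external product of two lifts over the square zero extension. -/

open MulOpposite

noncomputable section
namespace FMD
open _root_.FMD.DGR _root_.FMD.Bimod

namespace Kun2

variable {K : Type} [Field K] {A A' : DGR} [Algebra K A.B] [A.KL K] [Algebra K A'.B] [A'.KL K]
  {D : Derivation ℤ K K}

variable (A') in
/-- The first factor. -/
def j₁ : Et A D →+* Et (tens K A A') D := Et.map D (inL K A A')

variable (A) in
/-- The second factor. -/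
def j₂ : Et A' D →+* Et (tens K A A') D := Et.map D (inR K A A')

lemma env_comm (u : (env K A A).B) (v : (env K A' A').B) :
    envMap (inL K A A') u * envMap (inR K A A') v =
      envMap (inR K A A') v * envMap (inL K A A') u := by
  have h1 : envMap (inL K A A') u = shuf K A A' (tm K _ _ u 1) := by
    rw [shuf_tm, map_one, mul_one]
  have h2 : envMap (inR K A A') v = shuf K A A' (tm K _ _ 1 v) := by
    rw [shuf_tm, map_one, one_mul]
  rw [h1, h2, ← map_mul, ← map_mul, tm_mul, tm_mul, mul_one, one_mul, mul_one, one_mul]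

lemma comm (x : Et A D) (y : Et A' D) : Commute (j₁ A' x) (j₂ A y) := by
  induction y using Et.ind with
  | add u v hu hv => rw [map_add]; exact hu.add_right hv
  | ep y =>
    rw [Commute, SemiconjBy, j₁, j₂, Et.map_eps, Et.mul_eps, Et.eps_mul, Et.pr_map, env_comm]
  | lr a' b' =>
    induction x using Et.ind with
    | add u v hu hv => rw [map_add]; exact hu.add_left hv
    | ep x =>
      rw [Commute, SemiconjBy, j₁, j₂, Et.map_eps, Et.mul_eps, Et.eps_mul, Et.pr_map, env_comm]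
    | lr a b =>
      have h : ∀ (s : A.B) (t : A'.B), Commute (inL K A A' s) (inR K A A' t) := fun s t => by
        rw [Commute, SemiconjBy, inL_apply, inR_apply, tm_mul, tm_mul, mul_one, one_mul, mul_one,
          one_mul]
      rw [j₁, j₂, map_mul, map_mul, Et.map_L, Et.map_R, Et.map_L, Et.map_R]
      exact (((h a a').map _).mul_right (Et.commute _ _)).mul_left
        ((Et.commute _ _).symm.mul_right ((h _ _).op.map _))

lemma mul_mul (x x' : Et A D) (y y' : Et A' D) :
    j₁ A' x * j₂ A y * (j₁ A' x' * j₂ A y') = j₁ A' (x * x') * j₂ A (y * y') := by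
  rw [(comm x' y).symm.mul_mul_mul_comm, map_mul, map_mul]

lemma pr_mul (x : Et A D) (y : Et A' D) : Et.pr _ D (j₁ A' x * j₂ A y) =
    shuf K A A' (tm K _ _ (Et.pr A D x) (Et.pr A' D y)) := by
  rw [map_mul, j₁, j₂, Et.pr_map, Et.pr_map, shuf_tm]

lemma eps_l (x : (env K A A).B) (y : Et A' D) : j₁ A' (Et.eps A D x) * j₂ A y =
    Et.eps _ D (shuf K A A' (tm K _ _ x (Et.pr A' D y))) := by
  rw [j₁, j₂, Et.map_eps, Et.eps_mul, Et.pr_map, shuf_tm]

lemma eps_r (x : Et A D) (y : (env K A' A').B) : j₁ A' x * j₂ A (Et.eps A' D y) =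
    Et.eps _ D (shuf K A A' (tm K _ _ (Et.pr A D x) y)) := by
  rw [j₁, j₂, Et.map_eps, Et.mul_eps, Et.pr_map, shuf_tm]

lemma e_eq (o : (env K A A).O) (o' : (env K A' A').O) :
    Et.e (tens K A A') D ((shufF K A A').ob (o, o')) =
      j₁ A' (Et.e A D o) * j₂ A (Et.e A' D o') := by
  rw [Et.e, Et.e, Et.e, j₁, j₂, map_mul, map_mul, Et.map_L, Et.map_R, Et.map_L, Et.map_R,
    (Et.commute _ _).symm.mul_mul_mul_comm, ← map_mul, ← map_mul, ← op_mul, inL_apply, inR_apply,
    inL_apply, inR_apply, tm_mul, tm_mul, mul_one, one_mul, mul_one, one_mul]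
  rfl

/-- The Kronecker product. -/
def kr {I I' : Type} (f : Matrix I I (Et A D)) (g : Matrix I' I' (Et A' D)) :
    Matrix (I × I') (I × I') (Et (tens K A A') D) := fun i j => j₁ A' (f i.1 j.1) * j₂ A (g i.2 j.2)

lemma kr_mul {I I' : Type} [Fintype I] [Fintype I'] (f f' : Matrix I I (Et A D))
    (g g' : Matrix I' I' (Et A' D)) : kr f g * kr f' g' = kr (f * f') (g * g') := by
  ext i j
  simp only [kr, Matrix.mul_apply, mul_mul, Fintype.sum_prod_type, map_sum, Finset.sum_mul,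
    Finset.mul_sum]
  exact Finset.sum_comm

variable (D) in
/-- The lifted identity matrix. -/
def dm (q : Tw (env K A A)) : Matrix q.I q.I (Et A D) :=
  Matrix.diagonal fun i => Et.e A D (q.ob i)

variable {q : Tw (env K A A)} {κ : q.I → (Fr q).H}

lemma pr_dm (i j : q.I) : Et.pr A D (dm D q i j) = q.idm i j := by
  by_cases h : i = j <;> simp [dm, Tw.idm, h, Et.pr_e]

lemma l_dm (i j : q.I) : Et.e A D (q.ob i) * dm D q i j = dm D q i j := by
  by_cases h : i = j <;> simp [dm, h, Et.e_mul_self]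

lemma r_dm (i j : q.I) : dm D q i j * Et.e A D (q.ob j) = dm D q i j := by
  by_cases h : i = j <;> simp [dm, h, Et.e_mul_self]

lemma dm_dm : dm D q * dm D q = dm D q := by
  ext i j
  rw [dm, Matrix.diagonal_mul]
  exact l_dm i j

lemma dm_δ (L : Lift D q κ) : dm D q * L.δ = L.δ := by
  ext i j
  rw [dm, Matrix.diagonal_mul, L.l]

lemma δ_dm (L : Lift D q κ) : L.δ * dm D q = L.δ := by
  ext i j
  rw [dm, Matrix.mul_diagonal, L.r]

lemma val_gen' (i j : q.I) : Fr.val q (Fr.gen q i) j = q.idm i j := by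
  rw [Fr.val_gen]
  by_cases h : j = i
  · simp [Tw.idm, h]
  · simp [Tw.idm, h, Ne.symm h]

variable {q' : Tw (env K A' A')} {κ' : q'.I → (Fr q').H}

lemma box_mem {m n k : ℤ} (hκ : κ ∈ bhGr q (Fr q) m) (hκ' : κ' ∈ bhGr q' (Fr q') n)
    (h : m + n = k) :
    (fun i : (boxT q q').I => box (κ i.1) (κ' i.2)) ∈ bhGr (boxT q q') (Fr (boxT q q')) k :=
  Fr.rows_mem (x := boxT q q') (y := boxT q q') (n := k)
    (f := (kron K (Fr.mat κ) (Fr.mat κ')).map (shufF K A A').f)
    ((shufF K A A').map_mem (x := q.tens K q') (y := q.tens K q') (n := k) fun i j =>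
      tm_mem_cor (Fr.mat_mem hκ i.1 j.1) (Fr.mat_mem hκ' i.2 j.2) (by rw [← h]; ring))

/-- The product of two lifts. -/
def prod (L : Lift D q κ) (L' : Lift D q' κ') : Lift D (boxT q q') (boxK κ κ') where
  δ := kr L.δ (dm D q') + kr (dm D q) L'.δ
  pr i j := by
    change Et.pr _ D (_ * _ + _ * _) = shuf K A A' (tm K _ _ _ _ + tm K _ _ _ _)
    rw [map_add, map_add, pr_mul, pr_mul, pr_dm, pr_dm, L.pr, L'.pr]
  l i j := by
    change Et.e _ D ((shufF K A A').ob (q.ob i.1, q'.ob i.2)) * (_ * _ + _ * _) = _ * _ + _ * _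
    rw [e_eq, mul_add, mul_mul, mul_mul, l_dm, l_dm, L.l, L'.l]
  r i j := by
    change (_ * _ + _ * _) * Et.e _ D ((shufF K A A').ob (q.ob j.1, q'.ob j.2)) = _ * _ + _ * _
    rw [e_eq, add_mul, mul_mul, mul_mul, r_dm, r_dm, L.r, L'.r]
  deg i j h := by
    have h' : q.deg j.1 + q'.deg j.2 ≠ q.deg i.1 + q'.deg i.2 + 1 := h
    have h1 : kr L.δ (dm D q') i j = 0 := by
      by_cases e : i.2 = j.2
      · rw [kr, L.deg _ _ fun h'' => h' (by rw [e]; omega), map_zero, zero_mul]
      · rw [kr, dm, Matrix.diagonal_apply_ne _ e, map_zero, mul_zero]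
    have h2 : kr (dm D q) L'.δ i j = 0 := by
      by_cases e : i.1 = j.1
      · rw [kr, L'.deg _ _ fun h'' => h' (by rw [e]; omega), map_zero, mul_zero]
      · rw [kr, dm, Matrix.diagonal_apply_ne _ e, map_zero, zero_mul]
    exact (congrArg₂ (· + ·) h1 h2).trans (add_zero _)
  sq := by
    have z : kr L.δ L'.δ + kr L.δ L'.δ = 0 := by
      ext i j
      exact Et.two _
    have e : (kr L.δ (dm D q') + kr (dm D q) L'.δ) * (kr L.δ (dm D q') + kr (dm D q) L'.δ) =
        kr ((Fr.mat κ).map (Et.eps A D)) (dm D q') +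
          kr (dm D q) ((Fr.mat κ').map (Et.eps A' D)) := by
      rw [Matrix.add_mul, Matrix.mul_add, Matrix.mul_add, kr_mul, kr_mul, kr_mul, kr_mul, dm_dm,
        dm_dm, dm_δ, dm_δ, δ_dm, δ_dm, L.sq, L'.sq, add_assoc, ← add_assoc (kr L.δ L'.δ), z,
        zero_add]
    refine e.trans ?_
    ext i j
    change j₁ A' (Et.eps A D _) * _ + _ * j₂ A (Et.eps A' D _) =
      Et.eps _ D (Fr.val _ (box _ _ + box _ _) j)
    rw [eps_l, eps_r, pr_dm, pr_dm, map_add, Pi.add_apply, val_box, val_box, val_gen', val_gen',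
      map_add]
    rfl

end Kun2

theorem kun2 : Kun2Stmt := fun _ _ _ _ _ _ _ _ _ _ _ _ hκ _ hκ' L L' =>
  ⟨add_mem (Kun2.box_mem hκ gen_bhGr (add_zero _)) (Kun2.box_mem gen_bhGr hκ' (zero_add _)),
    ⟨Kun2.prod L L'⟩⟩

end FMD
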